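import Mathlib

/-!
The splitting number of the reals (helper4, MP_9201f8_lc).
-/

set_option autoImplicit false

noncomputable section

namespace Pool.Agent.Helper4.SR

open Cardinal

/-- `U` splits `A` -/
def Splits (U A : Set ℝ) : Prop := (A ∩ U).Infinite ∧ (A \ U).Infinite

/-- `𝒰` is a splitting family of open sets of reals -/
def IsSplitting (𝒰 : Set (Set ℝ)) : Prop :=
  (∀ U ∈ 𝒰, IsOpen U) ∧ ∀ A : Set ℝ, A.Infinite → ∃ U ∈ 𝒰, Splits U A

/-- the splitting number of the reals -/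
def sR : Cardinal.{0} := sInf {c | ∃ 𝒰 : Set (Set ℝ), IsSplitting 𝒰 ∧ #𝒰 = c}

end Pool.Agent.Helper4.SR
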