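import Mathlib

/-!
Fusion in the Cantor space (helper4, MP_9201f8_lc).
-/

set_option autoImplicit false

noncomputable section

namespace Pool.Agent.Helper4.SR

open Cardinal Function Set Filter Topology

/-- the Cantor space -/
abbrev CS := ℕ → Bool

/-- every family of fewer than `κ` open subsets of the Cantor space becomes a family of clopen sets on
a copy of the Cantor space -/
def HasCl (κ : Cardinal.{0}) : Prop :=
  ∀ W : Set (Set CS), #W < κ → (∀ w ∈ W, IsOpen w) →
    ∃ g : CS → CS, Continuous g ∧ Injective g ∧ ∀ w ∈ W, IsClosed (g ⁻¹' w)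

theorem exists_modulus (F : CS → CS) (hF : Continuous F) (n : ℕ) :
    ∃ k : ℕ, ∀ u v : CS, (∀ i, i < k → u i = v i) → ∀ i, i < n → F u i = F v i := by
  by_contra hcon
  push Not at hcon
  choose u v huv i hi hne using hcon
  obtain ⟨a, φ, hφ, ha⟩ := CompactSpace.tendsto_subseq u
  have hb : Tendsto (v ∘ φ) atTop (𝓝 a) := by
    rw [tendsto_pi_nhds] at ha ⊢
    intro j
    refine (ha j).congr' ?_
    filter_upwards [eventually_gt_atTop j] with m hm
    exact huv (φ m) j (lt_of_lt_of_le hm (hφ.id_le m))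
  have h1 : Tendsto (F ∘ (u ∘ φ)) atTop (𝓝 (F a)) := (hF.tendsto a).comp ha
  have h2 : Tendsto (F ∘ (v ∘ φ)) atTop (𝓝 (F a)) := (hF.tendsto a).comp hb
  rw [tendsto_pi_nhds] at h1 h2
  have h3 : ∀ᶠ m in atTop, ∀ j ∈ Finset.range n, F (u (φ m)) j = F (v (φ m)) j := by
    rw [Filter.eventually_all_finset]
    intro j _
    have e1 : ∀ᶠ m in atTop, F (u (φ m)) j = F a j := by
      have := h1 j
      rw [nhds_discrete, tendsto_pure] at this
      exact this
    have e2 : ∀ᶠ m in atTop, F (v (φ m)) j = F a j := by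
      have := h2 j
      rw [nhds_discrete, tendsto_pure] at this
      exact this
    filter_upwards [e1, e2] with m x y
    rw [x, y]
  obtain ⟨m, hm⟩ := h3.exists
  exact hne (φ m) (hm (i (φ m)) (Finset.mem_range.2 (hi (φ m))))

/-- glue the first `k` coordinates of `y` and `z` -/
def glue (k : ℕ) (y z : CS) : CS := fun i => if i < k then y i else z (i - k)

/-- the shift -/
def shf (k : ℕ) (y : CS) : CS := fun i => y (i + k)

theorem continuous_shf (k : ℕ) : Continuous (shf k) :=
  continuous_pi fun i => continuous_apply (i + k)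

theorem continuous_glue (k : ℕ) (y : CS) : Continuous (glue k y) := by
  refine continuous_pi fun i => ?_
  unfold glue
  by_cases h : i < k
  · simp only [h, if_true]
    exact continuous_const
  · simp only [h, if_false]
    exact continuous_apply (i - k)

theorem glue_congr (k : ℕ) (y y' z : CS) (h : ∀ i, i < k → y i = y' i) : glue k y z = glue k y' z := by
  funext i
  unfold glue
  by_cases hi : i < k
  · simp only [hi, if_true]
    exact h i hi
  · simp only [hi, if_false]

/-- the extension by `false` -/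
def ext0 (k : ℕ) (s : Fin k → Bool) : CS := fun i => if h : i < k then s ⟨i, h⟩ else false

theorem step (κ : Cardinal.{0}) (hκ : ℵ₀ ≤ κ) (h : HasCl κ) (W : Set (Set CS)) (hW : #W < κ)
    (ho : ∀ w ∈ W, IsOpen w) (F : CS → CS) (hF : Continuous F) (n K : ℕ) :
    ∃ (f : CS → CS) (k : ℕ), K < k ∧ Continuous f ∧ Injective f ∧ (∀ y i, i < k → f y i = y i) ∧
      (∀ u v : CS, (∀ i, i < k → u i = v i) → ∀ i, i < n → F u i = F v i) ∧
      ∀ w ∈ W, IsClosed ((F ∘ f) ⁻¹' w) := by
  obtain ⟨k0, hk0⟩ := exists_modulus F hF n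
  obtain ⟨k, hkdef⟩ : ∃ k, k = max k0 (K + 1) := ⟨_, rfl⟩
  let Φ : W × (Fin k → Bool) → Set CS := fun p => (fun z => F (glue k (ext0 k p.2) z)) ⁻¹' (p.1 : Set CS)
  have hcard : #(range Φ) < κ := by
    refine lt_of_le_of_lt Cardinal.mk_range_le ?_
    rw [Cardinal.mk_prod, Cardinal.lift_id, Cardinal.lift_id]
    exact Cardinal.mul_lt_of_lt hκ hW (lt_of_lt_of_le (Cardinal.mk_lt_aleph0) hκ)
  obtain ⟨g, hg, hgi, hgc⟩ := h (range Φ) hcard (by
    rintro _ ⟨p, rfl⟩
    exact (ho _ p.1.2).preimage (hF.comp (continuous_glue k _)))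
  refine ⟨fun y => glue k y (g (shf k y)), k, ?_, ?_, ?_, ?_, ?_, ?_⟩
  · omega
  · refine continuous_pi fun i => ?_
    unfold glue
    by_cases hi : i < k
    · simp only [hi, if_true]
      exact continuous_apply i
    · simp only [hi, if_false]
      exact (continuous_apply (i - k)).comp (hg.comp (continuous_shf k))
  · intro y y' hyy
    have h1 : ∀ i, i < k → y i = y' i := by
      intro i hi
      have := congrFun hyy i
      simpa [glue, hi] using this
    have h2 : g (shf k y) = g (shf k y') := by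
      funext i
      have := congrFun hyy (i + k)
      simpa [glue] using this
    have h3 := hgi h2
    funext i
    by_cases hi : i < k
    · exact h1 i hi
    · have := congrFun h3 (i - k)
      unfold shf at this
      rwa [Nat.sub_add_cancel (by omega)] at this
  · intro y i hi
    simp [glue, hi]
  · intro u v huv
    exact hk0 u v fun i hi => huv i (by omega)
  · intro w hw
    have heq : (F ∘ fun y => glue k y (g (shf k y))) ⁻¹' w =
        ⋃ s : Fin k → Bool, {y : CS | ∀ i : Fin k, y i = s i} ∩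
          (shf k) ⁻¹' (g ⁻¹' (Φ (⟨w, hw⟩, s))) := by
      ext y
      simp only [mem_preimage, Function.comp, mem_iUnion, mem_inter_iff, mem_ofPred_eq, Φ]
      constructor
      · intro hy
        refine ⟨fun i => y i, fun i => rfl, ?_⟩
        rwa [glue_congr k (ext0 k fun i => y i) y _ (by
          intro i hi
          simp [ext0, hi])]
      · rintro ⟨s, hs, hy⟩
        rwa [glue_congr k y (ext0 k s) _ (by
          intro i hi
          simp only [ext0, hi, dif_pos]
          exact hs ⟨i, hi⟩)]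
    rw [heq]
    refine isClosed_iUnion_of_finite fun s => IsClosed.inter ?_ ?_
    · have : {y : CS | ∀ i : Fin k, y i = s i} = ⋂ i : Fin k, {y : CS | y i = s i} := by
        ext y
        simp
      rw [this]
      refine isClosed_iInter fun i => ?_
      exact isClosed_eq (continuous_apply (i : ℕ)) continuous_const
    · exact (hgc _ ⟨_, rfl⟩).preimage (continuous_shf k)

theorem fusion (κ : Cardinal.{0}) (hκ : ℵ₀ ≤ κ) (h : HasCl κ) (W : ℕ → Set (Set CS))
    (hW : ∀ n, #(W n) < κ) (ho : ∀ n, ∀ w ∈ W n, IsOpen w) :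
    ∃ G : CS → CS, Continuous G ∧ Injective G ∧ ∀ n, ∀ w ∈ W n, IsClosed (G ⁻¹' w) := by
  let St := {F : CS → CS // Continuous F ∧ Injective F} × ℕ
  have hst : ∀ (n : ℕ) (s : St), ∃ s' : St, ∃ f : CS → CS, s.2 < s'.2 ∧
      (∀ y i, i < s'.2 → f y i = y i) ∧
      (∀ u v : CS, (∀ i, i < s'.2 → u i = v i) → ∀ i, i < n → s.1.1 u i = s.1.1 v i) ∧
      s'.1.1 = s.1.1 ∘ f ∧ ∀ w ∈ W n, IsClosed (s'.1.1 ⁻¹' w) := by
    intro n s
    obtain ⟨f, k, h1, h2, h3, h4, h5, h6⟩ := step κ hκ h (W n) (hW n) (ho n) s.1.1 s.1.2.1 n s.2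
    exact ⟨(⟨s.1.1 ∘ f, s.1.2.1.comp h2, s.1.2.2.comp h3⟩, k), f, h1, h4, h5, rfl, h6⟩
  choose nx hnx using hst
  let sq : ℕ → St := fun n => Nat.rec (⟨id, continuous_id, injective_id⟩, 0) (fun n s => nx n s) n
  have hsq : ∀ n, sq (n + 1) = nx n (sq n) := fun n => rfl
  obtain ⟨F, hFdef⟩ : ∃ F : ℕ → CS → CS, ∀ n, F n = (sq n).1.1 := ⟨_, fun n => rfl⟩
  obtain ⟨k, hkdef⟩ : ∃ k : ℕ → ℕ, ∀ n, k n = (sq n).2 := ⟨_, fun n => rfl⟩
  have hFc : ∀ n, Continuous (F n) := fun n => by rw [hFdef]; exact (sq n).1.2.1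
  have hFi : ∀ n, Injective (F n) := fun n => by rw [hFdef]; exact (sq n).1.2.2
  have key : ∀ n, ∃ f : CS → CS, k n < k (n + 1) ∧ (∀ y i, i < k (n + 1) → f y i = y i) ∧
      (∀ u v : CS, (∀ i, i < k (n + 1) → u i = v i) → ∀ i, i < n → F n u i = F n v i) ∧
      F (n + 1) = F n ∘ f ∧ ∀ w ∈ W n, IsClosed (F (n + 1) ⁻¹' w) := by
    intro n
    obtain ⟨f, h1, h2, h3, h4, h5⟩ := hnx n (sq n)
    simp only [hkdef, hFdef, hsq]
    exact ⟨f, h1, h2, h3, h4, h5⟩
  choose f hk hf hmod hFs hcl using key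
  have hkmono : StrictMono k := strictMono_nat_of_lt_succ hk
  have hstab : ∀ i m, i + 1 ≤ m → ∀ y, F m y i = F (i + 1) y i := by
    intro i m hm
    induction m, hm using Nat.le_induction with
    | base => intro y; rfl
    | succ m hm ih =>
      intro y
      rw [hFs m, Function.comp, hmod m (f m y) y (fun j hj => hf m y j hj) i (by omega)]
      exact ih y
  let G : CS → CS := fun y i => F (i + 1) y i
  have hGc : Continuous G := continuous_pi fun i => (continuous_apply i).comp (hFc (i + 1))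
  have hlim : ∀ y, Tendsto (fun m => F m y) atTop (𝓝 (G y)) := by
    intro y
    rw [tendsto_pi_nhds]
    intro i
    refine tendsto_const_nhds.congr' ?_
    filter_upwards [eventually_ge_atTop (i + 1)] with m hm
    exact (hstab i m hm y).symm
  have hrange : ∀ n m, n ≤ m → ∀ y, ∃ u, (∀ i, i < k (n + 1) → u i = y i) ∧ F n u = F m y := by
    intro n m hm
    induction m, hm using Nat.le_induction with
    | base => intro y; exact ⟨y, fun i _ => rfl, rfl⟩
    | succ m hm ih =>
      intro y
      obtain ⟨u, hu, hFu⟩ := ih (f m y)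
      refine ⟨u, fun i hi => ?_, ?_⟩
      · rw [hu i hi]
        exact hf m y i (lt_of_lt_of_le hi (hkmono.monotone (by omega)))
      · rw [hFu, hFs m]
        rfl
  have hG : ∀ n y, ∃ u, (∀ i, i < k (n + 1) → u i = y i) ∧ F n u = G y := by
    intro n y
    have hclosed : IsClosed {u : CS | ∀ i, i < k (n + 1) → u i = y i} := by
      have : {u : CS | ∀ i, i < k (n + 1) → u i = y i} =
          ⋂ i : ℕ, ⋂ _ : i < k (n + 1), {u : CS | u i = y i} := by
        ext u
        simp
      rw [this]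
      refine isClosed_iInter fun i => isClosed_iInter fun _ => ?_
      exact isClosed_eq (continuous_apply i) continuous_const
    have hcomp : IsCompact (F n '' {u : CS | ∀ i, i < k (n + 1) → u i = y i}) :=
      hclosed.isCompact.image (hFc n)
    have hmem : G y ∈ F n '' {u : CS | ∀ i, i < k (n + 1) → u i = y i} := by
      refine hcomp.isClosed.mem_of_tendsto (hlim y) ?_
      filter_upwards [eventually_ge_atTop n] with m hm
      obtain ⟨u, hu, hFu⟩ := hrange n m hm y
      exact ⟨u, hu, hFu⟩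
    obtain ⟨u, hu, hFu⟩ := hmem
    exact ⟨u, hu, hFu⟩
  refine ⟨G, hGc, ?_, ?_⟩
  · intro y y' hyy
    funext i
    obtain ⟨u, hu, hFu⟩ := hG i y
    obtain ⟨u', hu', hFu'⟩ := hG i y'
    have hue : u = u' := hFi i (by rw [hFu, hFu', hyy])
    have hik : i < k (i + 1) := lt_of_lt_of_le (Nat.lt_succ_self i) (hkmono.id_le (i + 1))
    rw [← hu i hik, ← hu' i hik, hue]
  · intro n w hw
    have hclo : IsClosed (F (n + 1) '' (F (n + 1) ⁻¹' w)) :=
      ((hcl n w hw).isCompact.image (hFc (n + 1))).isClosed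
    have heq : G ⁻¹' w = G ⁻¹' (F (n + 1) '' (F (n + 1) ⁻¹' w)) := by
      ext y
      obtain ⟨u, _, hFu⟩ := hG (n + 1) y
      constructor
      · intro hy
        refine ⟨u, ?_, hFu⟩
        rw [mem_preimage, hFu]
        exact hy
      · rintro ⟨u', hu', hFu'⟩
        rw [mem_preimage] at hu' ⊢
        rw [← hFu']
        exact hu'
    rw [heq]
    exact hclo.preimage hGc

end Pool.Agent.Helper4.SR
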