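import Pool.Agent.Helper4.SR.Defs
import Pool.Agent.Helper4.SR.Fusion

/-!
Perfect sets on which a small family of open sets is clopen (helper4, MP_9201f8_lc).
-/

set_option autoImplicit false

noncomputable section

namespace Pool.Agent.Helper4.SR

open Cardinal Function Set Filter Topology

/-- an enumeration of the rational numbers -/
theorem exists_enum : ∃ q : ℕ → ℝ, ∀ x y : ℝ, x < y → ∃ n, x < q n ∧ q n < y := by
  obtain ⟨e, he⟩ := exists_surjective_nat ℚ
  refine ⟨fun n => (e n : ℝ), fun x y hxy => ?_⟩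
  obtain ⟨r, h1, h2⟩ := exists_rat_btwn hxy
  obtain ⟨n, rfl⟩ := he r
  exact ⟨n, h1, h2⟩

/-- the position of `x` with respect to the sequence `q` -/
def pos (q : ℕ → ℝ) (x : ℝ) : CS := fun n => decide (q n < x)

theorem pos_injective (q : ℕ → ℝ) (hq : ∀ x y : ℝ, x < y → ∃ n, x < q n ∧ q n < y) :
    Injective (pos q) := by
  intro x y hxy
  by_contra hne
  rcases lt_or_gt_of_ne hne with h | h
  · obtain ⟨n, h1, h2⟩ := hq x y h
    have := congrFun hxy n
    simp only [pos, decide_eq_decide] at this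
    exact absurd (this.2 h2) (not_lt.2 h1.le)
  · obtain ⟨n, h1, h2⟩ := hq y x h
    have := congrFun hxy n
    simp only [pos, decide_eq_decide] at this
    exact absurd (this.1 h2) (not_lt.2 h1.le)

theorem pos_continuousAt (q : ℕ → ℝ) (x : ℝ) (hx : ∀ n, q n ≠ x) : ContinuousAt (pos q) x := by
  rw [ContinuousAt, tendsto_pi_nhds]
  intro n
  rw [nhds_discrete Bool, tendsto_pure]
  rcases lt_or_gt_of_ne (hx n) with h | h
  · filter_upwards [lt_mem_nhds h] with y hy
    simp only [pos]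
    rw [decide_eq_decide]
    exact ⟨fun _ => h, fun _ => hy⟩
  · filter_upwards [gt_mem_nhds h] with y hy
    simp only [pos]
    rw [decide_eq_decide]
    exact ⟨fun h' => absurd h' (not_lt.2 hy.le), fun h' => absurd h' (not_lt.2 h.le)⟩

/-- a copy of the Cantor space avoiding a sequence of points -/
theorem exists_avoid (y : ℕ → CS) : ∃ j : CS → CS, Continuous j ∧ Injective j ∧ ∀ z n, j z ≠ y n := by
  refine ⟨fun z i => if i % 2 = 0 then z (i / 2) else !(y (i / 2) i), ?_, ?_, ?_⟩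
  · refine continuous_pi fun i => ?_
    by_cases h : i % 2 = 0
    · simp only [h, if_true]
      exact continuous_apply (i / 2)
    · simp only [h, if_false]
      exact continuous_const
  · intro z z' hzz
    funext i
    have := congrFun hzz (2 * i)
    simp only [Nat.mul_mod_right, if_true, Nat.mul_div_cancel_left i (by norm_num : 0 < 2)] at this
    exact this
  · intro z n hn
    have := congrFun hn (2 * n + 1)
    have h1 : (2 * n + 1) % 2 = 1 := by omega
    have h2 : (2 * n + 1) / 2 = n := by omega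
    simp only [h1, h2, one_ne_zero, if_false] at this
    cases hb : y n (2 * n + 1) <;> simp [hb] at this

theorem hasCl_of (κ : Cardinal.{0})
    (h : ∀ 𝒰 : Set (Set ℝ), #𝒰 < κ → (∀ U ∈ 𝒰, IsOpen U) →
      ∃ P : Set ℝ, IsClosed P ∧ ¬ P.Countable ∧ ∀ U ∈ 𝒰, IsClosed (U ∩ P)) : HasCl κ := by
  intro W hW ho
  classical
  obtain ⟨q, hq⟩ := exists_enum
  let Ψ : Set CS → Set ℝ := fun w => interior (pos q ⁻¹' w)
  obtain ⟨P, hP, hPu, hPc⟩ := h (Ψ '' W) (lt_of_le_of_lt Cardinal.mk_image_le hW) (by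
    rintro _ ⟨w, _, rfl⟩
    exact isOpen_interior)
  obtain ⟨f0, hf0P, hf0c, hf0i⟩ := hP.exists_nat_bool_injection_of_not_countable hPu
  let y : ℕ → CS := fun n => if hy : ∃ z, f0 z = q n then hy.choose else fun _ => false
  obtain ⟨j, hjc, hji, hj⟩ := exists_avoid y
  have hav : ∀ z n, q n ≠ f0 (j z) := by
    intro z n hn
    have hy : ∃ z, f0 z = q n := ⟨j z, hn.symm⟩
    refine hj z n (hf0i ?_)
    simp only [y, hy, dif_pos]
    rw [hy.choose_spec, hn]
  have hgc : Continuous (pos q ∘ (f0 ∘ j)) := by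
    rw [continuous_iff_continuousAt]
    intro z
    exact ContinuousAt.comp (g := pos q) (f := f0 ∘ j) (pos_continuousAt q _ (hav z))
      (hf0c.comp hjc).continuousAt
  refine ⟨pos q ∘ (f0 ∘ j), hgc, (pos_injective q hq).comp (hf0i.comp hji), ?_⟩
  intro w hw
  have heq : (pos q ∘ (f0 ∘ j)) ⁻¹' w = (f0 ∘ j) ⁻¹' (Ψ w ∩ P) := by
    ext z
    constructor
    · intro hz
      refine ⟨?_, hf0P ⟨j z, rfl⟩⟩
      rw [mem_interior_iff_mem_nhds]
      exact (pos_continuousAt q _ (hav z)).preimage_mem_nhds ((ho w hw).mem_nhds hz)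
    · intro hz
      have h1 : f0 (j z) ∈ pos q ⁻¹' w := interior_subset hz.1
      exact h1
  rw [heq]
  exact (hPc _ ⟨w, hw, rfl⟩).preimage (hf0c.comp hjc)

/-- a family whose size has countable cofinality is the union of countably many smaller families -/
theorem exists_cover {α : Type} (S : Set α) (h : (#S).ord.cof = ℵ₀) :
    ∃ T : ℕ → Set α, (∀ n, #(T n) < #S) ∧ ∀ x ∈ S, ∃ n, x ∈ T n := by
  have hne : (#S).ord.ToType ≃ S := (Cardinal.eq.1 (by simp)).some
  obtain ⟨C, hC, hCc⟩ := Order.exists_cof_eq (#S).ord.ToType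
  rw [Ordinal.cof_toType, h] at hCc
  have hCn : Nonempty C := by
    rw [← Cardinal.mk_ne_zero_iff, hCc]
    exact Cardinal.aleph0_ne_zero
  have hcount : Countable C := by
    rw [← Cardinal.mk_le_aleph0_iff, hCc]
  obtain ⟨c, hc⟩ := exists_surjective_nat C
  have hinf : ℵ₀ ≤ #S := by
    calc ℵ₀ = (#S).ord.cof := h.symm
      _ ≤ #S := Ordinal.cof_ord_le _
  refine ⟨fun n => (fun i => (hne i : α)) '' (Iic (c n : (#S).ord.ToType)), fun n => ?_, ?_⟩
  · refine lt_of_le_of_lt Cardinal.mk_image_le ?_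
    have h1 : #(Iio (c n : (#S).ord.ToType)) < #S := by
      have := Cardinal.mk_Iio_lt (c n : (#S).ord.ToType) (by simp)
      simpa using this
    have h2 : #(Iic (c n : (#S).ord.ToType)) ≤ #(Iio (c n : (#S).ord.ToType)) + 1 := by
      rw [← Iio_insert]
      exact Cardinal.mk_insert_le
    refine lt_of_le_of_lt h2 (Cardinal.add_lt_of_lt hinf h1 (lt_of_lt_of_le Cardinal.one_lt_aleph0 hinf))
  · intro x hx
    obtain ⟨s, hs, hle⟩ := hC (hne.symm ⟨x, hx⟩)
    obtain ⟨n, hn⟩ := hc ⟨s, hs⟩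
    refine ⟨n, hne.symm ⟨x, hx⟩, ?_, by simp⟩
    rw [mem_Iic, hn]
    exact hle

/-- the points of a convergent sequence in the Cantor space -/
def pt (k : ℕ) : CS := fun i => decide (i = k)

theorem pt_injective : Injective pt := by
  intro k l h
  have := congrFun h k
  simp [pt] at this
  exact this

theorem pt_tendsto : Tendsto pt atTop (𝓝 (fun _ => false)) := by
  rw [tendsto_pi_nhds]
  intro i
  rw [nhds_discrete, tendsto_pure]
  filter_upwards [eventually_gt_atTop i] with k hk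
  simp only [pt, decide_eq_false_iff_not]
  omega

theorem infinite_of_splits (G : CS → ℝ) (U : Set ℝ) (hcl : IsClosed (G ⁻¹' U)) (hop : IsOpen (G ⁻¹' U)) :
    ¬ Splits U (range fun k => G (pt k)) := by
  rintro ⟨h1, h2⟩
  by_cases hz : (fun _ => false : CS) ∈ G ⁻¹' U
  · have hev : ∀ᶠ k in atTop, pt k ∈ G ⁻¹' U := pt_tendsto (hop.mem_nhds hz)
    obtain ⟨N, hN⟩ := eventually_atTop.1 hev
    refine h2 ((Set.finite_Iio N).image (fun k => G (pt k)) |>.subset ?_)
    rintro _ ⟨⟨k, rfl⟩, hk⟩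
    refine ⟨k, ?_, rfl⟩
    by_contra hge
    exact hk (hN k (not_lt.1 hge))
  · have hev : ∀ᶠ k in atTop, pt k ∈ (G ⁻¹' U)ᶜ := pt_tendsto (hcl.isOpen_compl.mem_nhds hz)
    obtain ⟨N, hN⟩ := eventually_atTop.1 hev
    refine h1 ((Set.finite_Iio N).image (fun k => G (pt k)) |>.subset ?_)
    rintro _ ⟨⟨k, rfl⟩, hk⟩
    refine ⟨k, ?_, rfl⟩
    by_contra hge
    exact hN k (not_lt.1 hge) hk

/-- If `s(ℝ)` has countable cofinality then a family of fewer than `s(ℝ)` open sets is not relatively clopen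
on any uncountable closed set. -/
theorem perfect_clopen (h : sR.ord.cof = ℵ₀) :
    ∃ 𝒰 : Set (Set ℝ), #𝒰 < sR ∧ (∀ U ∈ 𝒰, IsOpen U) ∧
      ∀ P : Set ℝ, IsClosed P → (∀ U ∈ 𝒰, IsClosed (U ∩ P)) → P.Countable := by
  by_contra hcon
  push Not at hcon
  have hne : {c | ∃ 𝒰 : Set (Set ℝ), IsSplitting 𝒰 ∧ #𝒰 = c}.Nonempty := by
    by_contra hem
    rw [Set.not_nonempty_iff_eq_empty] at hem
    have : sR = 0 := by
      unfold sR
      rw [hem]
      exact Cardinal.sInf_empty
    rw [this] at h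
    simp at h
    exact Cardinal.aleph0_ne_zero h.symm
  obtain ⟨𝒰, ⟨hop, hsp⟩, hcard⟩ := csInf_mem hne
  change #𝒰 = sR at hcard
  have hinf : ℵ₀ ≤ sR := by
    calc ℵ₀ = sR.ord.cof := h.symm
      _ ≤ sR := Ordinal.cof_ord_le _
  have hCl : HasCl sR := by
    refine hasCl_of sR fun 𝒱 h1 h2 => ?_
    obtain ⟨P, hP, hPc, hPu⟩ := hcon 𝒱 h1 h2
    exact ⟨P, hP, hPu, hPc⟩
  obtain ⟨T, hT, hTc⟩ := exists_cover 𝒰 (by rw [hcard]; exact h)
  rw [hcard] at hT
  have huc : ¬ (Set.univ : Set ℝ).Countable := by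
    intro hc
    exact Cardinal.not_countable_real hc
  obtain ⟨c, _, hcc, hci⟩ := isClosed_univ.exists_nat_bool_injection_of_not_countable huc
  obtain ⟨F, hFc, hFi, hF⟩ := fusion sR hinf hCl (fun n => (fun U => c ⁻¹' U) '' (T n ∩ 𝒰))
    (fun n => lt_of_le_of_lt (Cardinal.mk_image_le.trans (Cardinal.mk_le_mk_of_subset inter_subset_left))
      (hT n))
    (by
      rintro n _ ⟨U, hU, rfl⟩
      exact (hop U hU.2).preimage hcc)
  obtain ⟨U, hU, hsplit⟩ := hsp (range fun k => c (F (pt k)))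
    (Set.infinite_range_of_injective (hci.comp (hFi.comp pt_injective)))
  obtain ⟨n, hn⟩ := hTc U hU
  refine infinite_of_splits (c ∘ F) U ?_ ?_ hsplit
  · exact hF n _ ⟨U, ⟨hn, hU⟩, rfl⟩
  · exact (hop U hU).preimage (hcc.comp hFc)

end Pool.Agent.Helper4.SR
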