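import Pool.Agent.Helper4.SR.Perf

/-!
Splitting families in the Cantor space, unbounded families (helper4, MP_9201f8_lc).
-/

set_option autoImplicit false

noncomputable section

namespace Pool.Agent.Helper4.SR

open Cardinal Function Set Filter Topology

/-- `U` splits `A` -/
def Spl {α : Type} (U A : Set α) : Prop := (A ∩ U).Infinite ∧ (A \ U).Infinite

theorem exists_family (h0 : ℵ₀ ≤ sR) : ∃ 𝒰 : Set (Set ℝ), IsSplitting 𝒰 ∧ #𝒰 = sR := by
  have hne : {c | ∃ 𝒰 : Set (Set ℝ), IsSplitting 𝒰 ∧ #𝒰 = c}.Nonempty := by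
    by_contra hem
    rw [Set.not_nonempty_iff_eq_empty] at hem
    have : sR = 0 := by
      unfold sR
      rw [hem]
      exact Cardinal.sInf_empty
    rw [this] at h0
    exact absurd h0 (not_le.2 Cardinal.aleph0_pos)
  exact csInf_mem hne

theorem not_splitting (𝒰 : Set (Set ℝ)) (h : #𝒰 < sR) (ho : ∀ U ∈ 𝒰, IsOpen U) :
    ∃ A : Set ℝ, A.Infinite ∧ ∀ U ∈ 𝒰, ¬ Splits U A := by
  by_contra hcon
  push Not at hcon
  have : sR ≤ #𝒰 := csInf_le' ⟨𝒰, ⟨ho, fun A hA => ?_⟩, rfl⟩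
  · exact absurd this (not_le.2 h)
  · obtain ⟨U, hU, hs⟩ := hcon A hA
    exact ⟨U, hU, hs⟩

/-- a splitting family in the Cantor space -/
theorem exists_split_CS (h0 : ℵ₀ ≤ sR) : ∃ 𝒲 : Set (Set CS), #𝒲 ≤ sR ∧ (∀ w ∈ 𝒲, IsOpen w) ∧
    ∀ A : Set CS, A.Infinite → ∃ w ∈ 𝒲, Spl w A := by
  obtain ⟨𝒰, ⟨ho, hs⟩, hc⟩ := exists_family h0
  have huc : ¬ (Set.univ : Set ℝ).Countable := fun hc => Cardinal.not_countable_real hc
  obtain ⟨c, _, hcc, hci⟩ := isClosed_univ.exists_nat_bool_injection_of_not_countable huc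
  refine ⟨(fun U => c ⁻¹' U) '' 𝒰, Cardinal.mk_image_le.trans hc.le, ?_, ?_⟩
  · rintro _ ⟨U, hU, rfl⟩
    exact (ho U hU).preimage hcc
  · intro A hA
    obtain ⟨U, hU, h1, h2⟩ := hs (c '' A) (hA.image hci.injOn)
    refine ⟨_, ⟨U, hU, rfl⟩, ?_, ?_⟩
    · refine Set.Infinite.of_image c (h1.mono ?_)
      rintro _ ⟨⟨y, hy, rfl⟩, hyU⟩
      exact ⟨y, ⟨hy, hyU⟩, rfl⟩
    · refine Set.Infinite.of_image c (h2.mono ?_)
      rintro _ ⟨⟨y, hy, rfl⟩, hyU⟩
      exact ⟨y, ⟨hy, hyU⟩, rfl⟩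

theorem exists_enum2 : ∃ q q' : ℕ → ℝ, (∀ x y : ℝ, x < y → ∃ n, x < q n ∧ q n < y) ∧
    (∀ x y : ℝ, x < y → ∃ n, x < q' n ∧ q' n < y) ∧ ∀ n m, q n ≠ q' m := by
  obtain ⟨e, he⟩ := exists_surjective_nat ℚ
  refine ⟨fun n => (e n : ℝ), fun n => (e n : ℝ) + √2, fun x y hxy => ?_, fun x y hxy => ?_,
    fun n m h => ?_⟩
  · obtain ⟨r, h1, h2⟩ := exists_rat_btwn hxy
    obtain ⟨n, rfl⟩ := he r
    exact ⟨n, h1, h2⟩
  · obtain ⟨r, h1, h2⟩ := exists_rat_btwn (show x - √2 < y - √2 by linarith)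
    obtain ⟨n, rfl⟩ := he r
    exact ⟨n, by linarith, by linarith⟩
  · refine irrational_sqrt_two ⟨e n - e m, ?_⟩
    push_cast
    linarith

/-- fewer than `s(ℝ)` open sets do not split in the Cantor space -/
theorem exists_unsplit_CS (h0 : ℵ₀ ≤ sR) (𝒱 : Set (Set CS)) (h : #𝒱 < sR)
    (ho : ∀ w ∈ 𝒱, IsOpen w) : ∃ A : Set CS, A.Infinite ∧ ∀ w ∈ 𝒱, ¬ Spl w A := by
  classical
  obtain ⟨q, q', hq, hq', hqq⟩ := exists_enum2
  let Ψ : (ℕ → ℝ) → Set CS → Set ℝ := fun q w => interior (pos q ⁻¹' w)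
  obtain ⟨A, hA, hun⟩ := not_splitting (Ψ q '' 𝒱 ∪ Ψ q' '' 𝒱)
    (lt_of_le_of_lt (Cardinal.mk_union_le _ _) (Cardinal.add_lt_of_lt h0
      (lt_of_le_of_lt Cardinal.mk_image_le h) (lt_of_le_of_lt Cardinal.mk_image_le h)))
    (by
      rintro _ (⟨w, _, rfl⟩ | ⟨w, _, rfl⟩)
      · exact isOpen_interior
      · exact isOpen_interior)
  have key : ∀ (r : ℕ → ℝ) (A' : Set ℝ), (∀ x y : ℝ, x < y → ∃ n, x < r n ∧ r n < y) →
      A' ⊆ A → A'.Infinite → (∀ x ∈ A', ∀ n, r n ≠ x) → (∀ w ∈ 𝒱, ¬ Splits (Ψ r w) A) →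
      ∃ A : Set CS, A.Infinite ∧ ∀ w ∈ 𝒱, ¬ Spl w A := by
    intro r A' hr hsub hinf hav hns
    refine ⟨pos r '' A', hinf.image (pos_injective r hr).injOn, fun w hw hsp => ?_⟩
    refine hns w hw ⟨?_, ?_⟩
    · have h1 : (pos r ⁻¹' (pos r '' A' ∩ w) ∩ A').Infinite := by
        refine Set.Infinite.of_image (pos r) (hsp.1.mono ?_)
        rintro _ ⟨⟨x, hx, rfl⟩, hxw⟩
        exact ⟨x, ⟨⟨⟨x, hx, rfl⟩, hxw⟩, hx⟩, rfl⟩
      refine h1.mono ?_
      rintro x ⟨⟨_, hxw⟩, hx⟩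
      refine ⟨hsub hx, ?_⟩
      change x ∈ interior (pos r ⁻¹' w)
      rw [mem_interior_iff_mem_nhds]
      exact (pos_continuousAt r x (hav x hx)).preimage_mem_nhds ((ho w hw).mem_nhds hxw)
    · have h1 : (pos r ⁻¹' (pos r '' A' \ w) ∩ A').Infinite := by
        refine Set.Infinite.of_image (pos r) (hsp.2.mono ?_)
        rintro _ ⟨⟨x, hx, rfl⟩, hxw⟩
        exact ⟨x, ⟨⟨⟨x, hx, rfl⟩, hxw⟩, hx⟩, rfl⟩
      refine h1.mono ?_
      rintro x ⟨⟨_, hxw⟩, hx⟩
      refine ⟨hsub hx, fun hx2 => hxw ?_⟩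
      have hx3 : x ∈ pos r ⁻¹' w := interior_subset hx2
      exact hx3
  by_cases hfin : (A ∩ range q).Infinite
  · refine key q' (A ∩ range q) hq' inter_subset_left hfin ?_ fun w hw =>
      hun _ (Or.inr ⟨w, hw, rfl⟩)
    rintro _ ⟨_, ⟨n, rfl⟩⟩ m hm
    exact hqq n m hm.symm
  · refine key q (A \ range q) hq sdiff_subset ?_ ?_ fun w hw => hun _ (Or.inl ⟨w, hw, rfl⟩)
    · have : A \ (A ∩ range q) = A \ range q := by
        ext x
        simp only [mem_diff, mem_inter_iff, not_and]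
        tauto
      rw [← this]
      exact hA.diff (not_infinite.1 hfin)
    · rintro x ⟨_, hx⟩ n rfl
      exact hx ⟨n, rfl⟩

/-- the characteristic function of a finite set -/
def chi (E : Finset ℕ) : CS := fun i => decide (i ∈ E)

/-- the number added to the finite set `E` -/
def nxt (g : Finset ℕ → ℕ) (E : Finset ℕ) : ℕ := g E + E.sup id + 1

/-- the sequence of finite sets -/
def Es (g : Finset ℕ → ℕ) : ℕ → Finset ℕ
  | 0 => ∅
  | k + 1 => insert (nxt g (Es g k)) (Es g k)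

theorem lt_nxt (g : Finset ℕ → ℕ) (E : Finset ℕ) (i : ℕ) (hi : i ∈ E) : i < nxt g E := by
  have : i ≤ E.sup id := Finset.le_sup (f := id) hi
  unfold nxt
  omega

theorem Es_mono (g : Finset ℕ → ℕ) (k l : ℕ) (h : k ≤ l) : Es g k ⊆ Es g l := by
  induction l, h using Nat.le_induction with
  | base => exact Finset.Subset.refl _
  | succ l _ ih => exact ih.trans (Finset.subset_insert _ _)

theorem Es_new (g : Finset ℕ → ℕ) (k l : ℕ) (h : k ≤ l) (i : ℕ) (hi : i ∈ Es g l)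
    (hk : i ∉ Es g k) : nxt g (Es g k) ≤ i := by
  induction l, h using Nat.le_induction with
  | base => exact absurd hi hk
  | succ l hl ih =>
    rw [Es, Finset.mem_insert] at hi
    rcases hi with rfl | hi
    · rcases Nat.eq_or_lt_of_le hl with rfl | hlt
      · exact le_refl _
      · have h1 : nxt g (Es g k) ∈ Es g l :=
          Es_mono g (k + 1) l hlt (by rw [Es]; exact Finset.mem_insert_self _ _)
        exact (lt_nxt g _ _ h1).le
    · exact ih hi

theorem Es_inj (g : Finset ℕ → ℕ) : Injective (Es g) := by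
  have h1 : ∀ k l, k < l → Es g k ≠ Es g l := by
    intro k l h he
    have h2 : nxt g (Es g k) ∈ Es g l :=
      Es_mono g (k + 1) l h (by rw [Es]; exact Finset.mem_insert_self _ _)
    rw [← he] at h2
    exact absurd (lt_nxt g _ _ h2) (lt_irrefl _)
  intro k l h
  rcases lt_trichotomy k l with h2 | h2 | h2
  · exact absurd h (h1 k l h2)
  · exact h2
  · exact absurd h.symm (h1 l k h2)

theorem chi_inj : Injective chi := by
  intro E F h
  ext i
  have := congrFun h i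
  simpa [chi] using this

/-- an unbounded family of at most `s(ℝ)` functions -/
theorem exists_unbounded (h0 : ℵ₀ ≤ sR) : ∃ B : Set (ℕ → ℕ), #B ≤ sR ∧
    ∀ g : ℕ → ℕ, ∃ f ∈ B, ∀ N, ∃ n, N ≤ n ∧ g n ≤ f n := by
  classical
  obtain ⟨𝒲, hc, ho, hs⟩ := exists_split_CS h0
  have hl : ∀ w : Set CS, ∃ ℓ : Finset ℕ → ℕ, IsOpen w → ∀ E, chi E ∈ w →
      ∀ y : CS, (∀ i < ℓ E, y i = chi E i) → y ∈ w := by
    intro w
    have : ∀ E : Finset ℕ, ∃ m : ℕ, IsOpen w → chi E ∈ w → ∀ y : CS, (∀ i < m, y i = chi E i) →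
        y ∈ w := by
      intro E
      by_cases hw : IsOpen w ∧ chi E ∈ w
      · by_contra hcon
        push Not at hcon
        choose h1 h2 y hy hyw using hcon
        have ht : Tendsto y atTop (𝓝 (chi E)) := by
          rw [tendsto_pi_nhds]
          intro i
          rw [nhds_discrete, tendsto_pure]
          filter_upwards [eventually_gt_atTop i] with m hm
          exact hy m i hm
        have hev : ∀ᶠ m in atTop, y m ∈ w := ht (hw.1.mem_nhds hw.2)
        obtain ⟨m, hm⟩ := hev.exists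
        exact hyw m hm
      · exact ⟨0, fun h1 h2 => absurd ⟨h1, h2⟩ hw⟩
    choose m hm using this
    exact ⟨m, fun h1 E h2 => hm E h1 h2⟩
  choose ℓ hℓ using hl
  let dec : ℕ → Finset ℕ := fun n => (Encodable.decode n).getD ∅
  have hdec : ∀ E : Finset ℕ, dec (Encodable.encode E) = E := by
    intro E
    simp [dec]
  refine ⟨(fun w n => ℓ w (dec n)) '' 𝒲, Cardinal.mk_image_le.trans hc, ?_⟩
  by_contra hcon
  push Not at hcon
  obtain ⟨g, hg⟩ := hcon
  let g' : Finset ℕ → ℕ := fun E => g (Encodable.encode E)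
  let x : CS := fun i => decide (∃ k, i ∈ Es g' k)
  have hx : ∀ k i, i < nxt g' (Es g' k) → x i = chi (Es g' k) i := by
    intro k i hi
    simp only [x, chi, decide_eq_decide]
    constructor
    · rintro ⟨l, hl⟩
      by_contra hk
      rcases le_total k l with h | h
      · exact absurd (Es_new g' k l h i hl hk) (not_le.2 hi)
      · exact hk (Es_mono g' l k h hl)
    · intro h
      exact ⟨k, h⟩
  have hinj : Injective fun k => chi (Es g' k) := chi_inj.comp (Es_inj g')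
  have hk : ∀ k, k ≤ nxt g' (Es g' k) := by
    intro k
    induction k with
    | zero => exact Nat.zero_le _
    | succ k ih =>
      have : nxt g' (Es g' k) < nxt g' (Es g' (k + 1)) :=
        lt_nxt _ _ _ (by rw [Es]; exact Finset.mem_insert_self _ _)
      omega
  have ht : Tendsto (fun k => chi (Es g' k)) atTop (𝓝 x) := by
    rw [tendsto_pi_nhds]
    intro i
    rw [nhds_discrete, tendsto_pure]
    filter_upwards [eventually_gt_atTop i] with k hk'
    exact (hx k i (lt_of_lt_of_le hk' (hk k))).symm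
  obtain ⟨w, hw, h1, h2⟩ := hs (range fun k => chi (Es g' k)) (Set.infinite_range_of_injective hinj)
  by_cases hxw : x ∈ w
  · have hev : ∀ᶠ k in atTop, chi (Es g' k) ∈ w := ht ((ho w hw).mem_nhds hxw)
    obtain ⟨N, hN⟩ := eventually_atTop.1 hev
    refine h2 ((Set.finite_Iio N).image (fun k => chi (Es g' k)) |>.subset ?_)
    rintro _ ⟨⟨k, rfl⟩, hk2⟩
    refine ⟨k, ?_, rfl⟩
    by_contra hge
    exact hk2 (hN k (not_lt.1 hge))
  · obtain ⟨N, hN⟩ := hg _ ⟨w, hw, rfl⟩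
    have hfin : {k | Encodable.encode (Es g' k) < N}.Finite := by
      refine Set.Finite.preimage (s := Set.Iio N) ?_ (Set.finite_Iio N)
      exact (Encodable.encode_injective.comp (Es_inj g')).injOn
    refine h1 ((hfin.image (fun k => chi (Es g' k))).subset ?_)
    rintro _ ⟨⟨k, rfl⟩, hk2⟩
    refine ⟨k, ?_, rfl⟩
    by_contra hge
    have hge' : N ≤ Encodable.encode (Es g' k) := not_lt.1 hge
    have h3 : ℓ w (dec (Encodable.encode (Es g' k))) < g (Encodable.encode (Es g' k)) :=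
      hN _ hge'
    rw [hdec] at h3
    refine hxw (hℓ w (ho w hw) _ hk2 x fun i hi => hx k i ?_)
    have : ℓ w (Es g' k) < g' (Es g' k) := h3
    unfold nxt
    omega

end Pool.Agent.Helper4.SR
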