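import Pool.Agent.Helper4.SR.Thin1

/-!
Splitting countably many sets of natural numbers at once (helper4, MP_9201f8_lc).
-/

set_option autoImplicit false

noncomputable section

namespace Pool.Agent.Helper4.SR

open Cardinal Function Set Filter Topology

/-- a splitting family of sets of natural numbers -/
theorem exists_split_nat (h0 : ℵ₀ ≤ sR) : ∃ 𝒮 : Set (Set ℕ), #𝒮 ≤ sR ∧
    ∀ D : Set ℕ, D.Infinite → ∃ s ∈ 𝒮, Spl s D := by
  obtain ⟨𝒲, hc, ho, hs⟩ := exists_split_CS h0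
  refine ⟨(fun w => {k | pt k ∈ w}) '' 𝒲, Cardinal.mk_image_le.trans hc, fun D hD => ?_⟩
  obtain ⟨w, hw, h1, h2⟩ := hs (pt '' D) (hD.image pt_injective.injOn)
  refine ⟨_, ⟨w, hw, rfl⟩, ?_, ?_⟩
  · refine Set.Infinite.of_image pt (h1.mono ?_)
    rintro _ ⟨⟨k, hk, rfl⟩, hkw⟩
    exact ⟨k, ⟨hk, hkw⟩, rfl⟩
  · refine Set.Infinite.of_image pt (h2.mono ?_)
    rintro _ ⟨⟨k, hk, rfl⟩, hkw⟩
    exact ⟨k, ⟨hk, hkw⟩, rfl⟩

/-- an unbounded family of monotone functions above the identity -/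
theorem exists_unbounded' (h0 : ℵ₀ ≤ sR) : ∃ B : Set (ℕ → ℕ), #B ≤ sR ∧
    (∀ f ∈ B, Monotone f ∧ ∀ n, n < f n) ∧ ∀ g : ℕ → ℕ, ∃ f ∈ B, ∀ N, ∃ n, N ≤ n ∧ g n ≤ f n := by
  obtain ⟨B, hB, hu⟩ := exists_unbounded h0
  refine ⟨(fun f n => (∑ k ∈ Finset.range (n + 1), f k) + n + 1) '' B,
    Cardinal.mk_image_le.trans hB, ?_, fun g => ?_⟩
  · rintro _ ⟨f, _, rfl⟩
    refine ⟨fun a b hab => ?_, fun n => ?_⟩
    · have : ∑ k ∈ Finset.range (a + 1), f k ≤ ∑ k ∈ Finset.range (b + 1), f k :=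
        Finset.sum_le_sum_of_subset (Finset.range_mono (by omega))
      dsimp only
      omega
    · dsimp only
      omega
  · obtain ⟨f, hf, hN⟩ := hu g
    refine ⟨_, ⟨f, hf, rfl⟩, fun N => ?_⟩
    obtain ⟨n, hn, hg⟩ := hN N
    refine ⟨n, hn, ?_⟩
    have : f n ≤ ∑ k ∈ Finset.range (n + 1), f k :=
      Finset.single_le_sum (f := f) (fun _ _ => Nat.zero_le _) (Finset.self_mem_range_succ n)
    dsimp only
    omega

/-- the number of the block of `m` -/
def blk (f : ℕ → ℕ) (m : ℕ) : ℕ := Nat.findGreatest (fun k => f^[k] 0 ≤ m) m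

theorem iter_ge (f : ℕ → ℕ) (hf : ∀ n, n < f n) (k : ℕ) : k ≤ f^[k] 0 := by
  induction k with
  | zero => exact Nat.zero_le _
  | succ k ih =>
    rw [Function.iterate_succ_apply']
    have := hf (f^[k] 0)
    omega

theorem iter_mono (f : ℕ → ℕ) (hf : ∀ n, n < f n) {k l : ℕ} (h : k ≤ l) : f^[k] 0 ≤ f^[l] 0 := by
  induction l, h using Nat.le_induction with
  | base => exact le_refl _
  | succ l _ ih =>
    rw [Function.iterate_succ_apply']
    have := hf (f^[l] 0)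
    omega

theorem blk_spec (f : ℕ → ℕ) (hf : ∀ n, n < f n) (m : ℕ) :
    f^[blk f m] 0 ≤ m ∧ m < f^[blk f m + 1] 0 := by
  constructor
  · unfold blk
    exact Nat.findGreatest_spec (P := fun k => f^[k] 0 ≤ m) (Nat.zero_le m) (Nat.zero_le m)
  · by_contra hcon
    have h1 : f^[blk f m + 1] 0 ≤ m := not_lt.1 hcon
    have h2 : blk f m + 1 ≤ m := (iter_ge f hf _).trans h1
    have h3 : blk f m + 1 ≤ blk f m :=
      Nat.le_findGreatest (P := fun k => f^[k] 0 ≤ m) h2 h1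
    omega

theorem blk_le_iff (f : ℕ → ℕ) (hf : ∀ n, n < f n) (m k : ℕ) : k ≤ blk f m ↔ f^[k] 0 ≤ m := by
  obtain ⟨h1, h2⟩ := blk_spec f hf m
  constructor
  · intro h
    exact (iter_mono f hf h).trans h1
  · intro h
    by_contra hlt
    have h3 : blk f m + 1 ≤ k := by omega
    have := iter_mono f hf h3
    omega

/-- a family of at most `s(ℝ)` sets such that for all sequences of infinite sets one set splits all the sets of
the sequence -/
theorem exists_split_seq (h0 : ℵ₀ ≤ sR) : ∃ 𝒮 : Set (Set ℕ), #𝒮 ≤ sR ∧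
    ∀ D : ℕ → Set ℕ, (∀ n, (D n).Infinite) → ∃ s ∈ 𝒮, ∀ n, Spl s (D n) := by
  classical
  obtain ⟨𝒮, hS, hsp⟩ := exists_split_nat h0
  obtain ⟨B, hB, hBm, hu⟩ := exists_unbounded' h0
  let Φ : (B × 𝒮) × Bool → Set ℕ := fun p =>
    {m | (blk p.1.1 m + (if p.2 then 1 else 0)) / 2 ∈ (p.1.2 : Set ℕ)}
  refine ⟨range Φ, ?_, fun D hD => ?_⟩
  · refine Cardinal.mk_range_le.trans ?_
    rw [Cardinal.mk_prod, Cardinal.lift_id, Cardinal.lift_id, Cardinal.mk_prod, Cardinal.lift_id,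
      Cardinal.lift_id]
    refine (mul_le_mul' (mul_le_mul' hB hS) (Cardinal.mk_le_aleph0.trans h0)).trans ?_
    rw [Cardinal.mul_eq_self h0, Cardinal.mul_eq_self h0]
  · -- the growth function
    have hg : ∀ m : ℕ, ∃ g : ℕ, ∀ n ≤ m, ∃ d ∈ D n, m ≤ d ∧ d < g := by
      intro m
      have h1 : ∀ n, ∃ d ∈ D n, m ≤ d := by
        intro n
        obtain ⟨d, hd, hlt⟩ := (hD n).exists_gt m
        exact ⟨d, hd, hlt.le⟩
      choose d hd hmd using h1
      refine ⟨(∑ n ∈ Finset.range (m + 1), d n) + 1, fun n hn => ⟨d n, hd n, hmd n, ?_⟩⟩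
      have : d n ≤ ∑ n ∈ Finset.range (m + 1), d n :=
        Finset.single_le_sum (f := d) (fun _ _ => Nat.zero_le _) (Finset.mem_range.2 (by omega))
      omega
    choose g hg using hg
    obtain ⟨f, hf, hfg⟩ := hu g
    obtain ⟨hmono, hgt⟩ := hBm f hf
    -- good blocks
    let K : ℕ → Prop := fun k => ∀ n ≤ k, ∃ d ∈ D n, blk f d = k ∨ blk f d = k + 1
    have hK : ∀ N, ∃ k, N ≤ k ∧ K k := by
      intro N
      obtain ⟨m, hm, hgm⟩ := hfg (f^[N] 0)
      refine ⟨blk f m, (blk_le_iff f hgt m N).2 hm, fun n hn => ?_⟩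
      obtain ⟨h1, h2⟩ := blk_spec f hgt m
      have h3 : n ≤ m := hn.trans ((iter_ge f hgt _).trans h1)
      obtain ⟨d, hd, hmd, hdg⟩ := hg m n h3
      refine ⟨d, hd, ?_⟩
      have h4 : blk f m ≤ blk f d := (blk_le_iff f hgt d _).2 (h1.trans hmd)
      have h5 : d < f^[blk f m + 2] 0 := by
        rw [Function.iterate_succ_apply']
        calc d < g m := hdg
          _ ≤ f m := hgm
          _ ≤ f (f^[blk f m + 1] 0) := hmono h2.le
      have h6 : ¬ blk f m + 2 ≤ blk f d := by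
        rw [blk_le_iff f hgt]
        omega
      omega
    let K' : Bool → Set ℕ := fun ε =>
      {i | ∀ n ≤ i, ∃ d ∈ D n, (blk f d + (if ε then 1 else 0)) / 2 = i}
    have hK' : ∃ ε, (K' ε).Infinite := by
      by_contra hcon
      push Not at hcon
      have h1 := (hcon false)
      have h2 := (hcon true)
      obtain ⟨N1, hN1⟩ := h1.bddAbove
      obtain ⟨N2, hN2⟩ := h2.bddAbove
      obtain ⟨k, hk, hKk⟩ := hK (2 * (N1 + N2) + 2)
      rcases Nat.even_or_odd' k with ⟨c, hc | hc⟩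
      · have : c ∈ K' false := by
          intro n hn
          obtain ⟨d, hd, hdk⟩ := hKk n (by omega)
          refine ⟨d, hd, ?_⟩
          simp only [Bool.false_eq_true, if_false]
          omega
        have := hN1 this
        omega
      · have : c + 1 ∈ K' true := by
          intro n hn
          obtain ⟨d, hd, hdk⟩ := hKk n (by omega)
          refine ⟨d, hd, ?_⟩
          simp only [if_true]
          omega
        have := hN2 this
        omega
    obtain ⟨ε, hε⟩ := hK'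
    obtain ⟨s, hs, hs1, hs2⟩ := hsp (K' ε) hε
    refine ⟨_, ⟨((⟨f, hf⟩, ⟨s, hs⟩), ε), rfl⟩, fun n => ⟨?_, ?_⟩⟩
    · refine Set.Infinite.of_image (fun d => (blk f d + (if ε then 1 else 0)) / 2)
        ((hs1.diff (Set.finite_Iio n)).mono ?_)
      rintro i ⟨⟨hi, his⟩, hin⟩
      obtain ⟨d, hd, hdi⟩ := hi n (not_lt.1 hin)
      refine ⟨d, ⟨hd, ?_⟩, hdi⟩
      change (blk f d + (if ε then 1 else 0)) / 2 ∈ s
      rw [hdi]
      exact his
    · refine Set.Infinite.of_image (fun d => (blk f d + (if ε then 1 else 0)) / 2)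
        ((hs2.diff (Set.finite_Iio n)).mono ?_)
      rintro i ⟨⟨hi, his⟩, hin⟩
      obtain ⟨d, hd, hdi⟩ := hi n (not_lt.1 hin)
      refine ⟨d, ⟨hd, fun h => ?_⟩, hdi⟩
      change (blk f d + (if ε then 1 else 0)) / 2 ∈ s at h
      rw [hdi] at h
      exact his h

end Pool.Agent.Helper4.SR
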