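import Pool.Agent.Helper4.SR.Thin2

/-!
Coverings by thin sets (helper4, MP_9201f8_lc).
-/

set_option autoImplicit false

noncomputable section

namespace Pool.Agent.Helper4.SR

open Cardinal Function Set Filter Topology

/-- the first `m` places -/
def tr (m : ℕ) (x : CS) : Fin m → Bool := fun i => x i

theorem continuous_tr (m : ℕ) : Continuous (tr m) :=
  continuous_pi fun i => continuous_apply (i : ℕ)

theorem isClopen_dep (m : ℕ) (P : Set CS) (h : ∀ y y' : CS, tr m y = tr m y' → y ∈ P → y' ∈ P) :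
    IsClopen P := by
  have : P = tr m ⁻¹' (tr m '' P) := by
    ext y
    constructor
    · intro hy
      exact ⟨y, hy, rfl⟩
    · rintro ⟨y', hy', he⟩
      exact h y' y he hy'
  rw [this]
  exact (isClopen_discrete _).preimage (continuous_tr m)

/-- a bound for the coded places -/
def Fbd (f : ℕ → ℕ) (p : ℕ) : ℕ := (max (p + 1) (f p) + 1) ^ 2

theorem pair_lt (f : ℕ → ℕ) (p i j : ℕ) (hi : i ≤ p + 1) (hj : j < f p) :
    Nat.pair i j < Fbd f p := by
  refine (Nat.pair_lt_max_add_one_sq i j).trans_le ?_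
  unfold Fbd
  refine Nat.pow_le_pow_left ?_ 2
  have : max i j ≤ max (p + 1) (f p) := max_le_max hi hj.le
  omega

/-- the points which agree at the first `f p` places with one of the first `p + 2` parts of a point of `L` -/
def Cset (L : Set CS) (f : ℕ → ℕ) (p : ℕ) : Set CS :=
  {y | ∃ z ∈ L, ∃ i ≤ p + 1, ∀ j < f p, y j = z (Nat.pair i j)}

theorem Cset_clopen (L : Set CS) (f : ℕ → ℕ) (p : ℕ) : IsClopen (Cset L f p) := by
  refine isClopen_dep (f p) _ ?_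
  rintro y y' he ⟨z, hz, i, hi, hj⟩
  refine ⟨z, hz, i, hi, fun j hjf => ?_⟩
  rw [← hj j hjf]
  exact (congrFun he ⟨j, hjf⟩).symm

theorem Cset_thin (L : Set CS) (f : ℕ → ℕ) (p K : ℕ) (hL : (tr (Fbd f p) '' L).ncard ≤ K) :
    (tr (f p) '' Cset L f p).ncard ≤ (p + 2) * K := by
  let φ : Fin (p + 2) × (Fin (Fbd f p) → Bool) → (Fin (f p) → Bool) := fun q j =>
    q.2 ⟨Nat.pair q.1 j, pair_lt f p q.1 j (Nat.le_of_lt_succ q.1.2) j.2⟩
  have hsub : tr (f p) '' Cset L f p ⊆ φ '' (Set.univ ×ˢ (tr (Fbd f p) '' L)) := by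
    rintro _ ⟨y, ⟨z, hz, i, hi, hj⟩, rfl⟩
    refine ⟨(⟨i, by omega⟩, tr (Fbd f p) z), ⟨mem_univ _, ⟨z, hz, rfl⟩⟩, ?_⟩
    funext j
    exact (hj j j.2).symm
  calc (tr (f p) '' Cset L f p).ncard ≤ (φ '' (Set.univ ×ˢ (tr (Fbd f p) '' L))).ncard :=
        Set.ncard_le_ncard hsub (Set.toFinite _)
    _ ≤ ((Set.univ : Set (Fin (p + 2))) ×ˢ (tr (Fbd f p) '' L)).ncard :=
        Set.ncard_image_le (Set.toFinite _)
    _ = (p + 2) * (tr (Fbd f p) '' L).ncard := by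
        rw [Set.ncard_prod, Set.ncard_univ, Nat.card_fin]
    _ ≤ (p + 2) * K := Nat.mul_le_mul_left _ hL

/-- the points which leave the sets `C 0, C 1, ...` at a place of `T` -/
def Vset (C : ℕ → Set CS) (T : Set ℕ) : Set CS := {y | ∃ p ∈ T, y ∉ C p ∧ ∀ p' < p, y ∈ C p'}

theorem Vset_open (C : ℕ → Set CS) (hC : ∀ p, IsClopen (C p)) (T : Set ℕ) : IsOpen (Vset C T) := by
  have : Vset C T = ⋃ p ∈ T, (C p)ᶜ ∩ ⋂ p' ∈ Set.Iio p, C p' := by
    ext y
    simp only [Vset, mem_ofPred_eq, mem_iUnion, mem_inter_iff, mem_compl_iff, mem_iInter, mem_Iio,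
      exists_prop]
  rw [this]
  refine isOpen_biUnion fun p _ => (hC p).1.isOpen_compl.inter ?_
  exact (Set.finite_Iio p).isOpen_biInter fun p' _ => (hC p').2

/-- the places where the points `a j` leave -/
def Dset (C : ℕ → Set CS) (a : ℕ → CS) : Set ℕ := {p | ∃ j, a j ∉ C p ∧ ∀ p' < p, a j ∈ C p'}

theorem Dset_infinite (C : ℕ → Set CS) (hC : ∀ p, IsClopen (C p)) (a : ℕ → CS) (x : CS)
    (hx : Tendsto a atTop (𝓝 x)) (hxC : ∀ p, x ∈ C p) (hout : ∀ N, ∃ j, N ≤ j ∧ ∃ p, a j ∉ C p) :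
    (Dset C a).Infinite := by
  classical
  intro hfin
  obtain ⟨P, hP⟩ := hfin.bddAbove
  have hev : ∀ᶠ j in atTop, ∀ p ∈ Finset.range (P + 1), a j ∈ C p := by
    rw [Filter.eventually_all_finset]
    intro p _
    exact hx ((hC p).2.mem_nhds (hxC p))
  obtain ⟨J, hJ⟩ := eventually_atTop.1 hev
  obtain ⟨j, hj, hex⟩ := hout J
  have h1 := Nat.find_spec hex
  have h2 : Nat.find hex ∈ Dset C a := by
    refine ⟨j, h1, fun p' hp' => ?_⟩
    by_contra hcon
    exact Nat.find_min hex hp' hcon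
  have h3 := hP h2
  exact h1 (hJ j hj _ (Finset.mem_range.2 (by omega)))

theorem exit_eq (C : ℕ → Set CS) (y : CS) (p : ℕ) (h1 : y ∉ C p) (h2 : ∀ p' < p, y ∈ C p') :
    sInf {p | y ∉ C p} = p := by
  apply le_antisymm
  · exact Nat.sInf_le h1
  · by_contra hlt
    have hmem : sInf {p | y ∉ C p} ∈ {p | y ∉ C p} := Nat.sInf_mem ⟨p, h1⟩
    exact hmem (h2 _ (not_le.1 hlt))

theorem spl_Vset (C : ℕ → Set CS) (a : ℕ → CS) (T : Set ℕ) (h : Spl T (Dset C a)) :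
    Spl (Vset C T) (range a) := by
  refine ⟨?_, ?_⟩
  · refine Set.Infinite.of_image (fun y => sInf {p | y ∉ C p}) (h.1.mono ?_)
    rintro p ⟨⟨j, h1, h2⟩, hpT⟩
    exact ⟨a j, ⟨⟨j, rfl⟩, ⟨p, hpT, h1, h2⟩⟩, exit_eq C _ p h1 h2⟩
  · refine Set.Infinite.of_image (fun y => sInf {p | y ∉ C p}) (h.2.mono ?_)
    rintro p ⟨⟨j, h1, h2⟩, hpT⟩
    refine ⟨a j, ⟨⟨j, rfl⟩, ?_⟩, exit_eq C _ p h1 h2⟩
    rintro ⟨p', hp', h3, h4⟩
    have e1 := exit_eq C (a j) p h1 h2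
    have e2 := exit_eq C (a j) p' h3 h4
    rw [e1] at e2
    exact hpT (e2 ▸ hp')

theorem exists_sep (a : ℕ → CS) (ha : Injective a) (p K : ℕ) : ∃ m₀, ∀ m, m₀ ≤ m → ∀ j ≤ K, ∀ j' ≤ K,
    j ≠ j' → tr m (a (p + j)) ≠ tr m (a (p + j')) := by
  have h1 : ∀ j j', ∃ d, j ≠ j' → a (p + j) d ≠ a (p + j') d := by
    intro j j'
    by_cases hjj : j = j'
    · exact ⟨0, fun h => absurd hjj h⟩
    · have hne : a (p + j) ≠ a (p + j') := fun h => hjj (by have := ha h; omega)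
      by_contra hcon
      push Not at hcon
      exact hne (funext fun d => (hcon d).2)
  choose d hd using h1
  refine ⟨∑ j ∈ Finset.range (K + 1), ∑ j' ∈ Finset.range (K + 1), (d j j' + 1), ?_⟩
  intro m hm j hj j' hj' hne he
  have h2 : d j j' + 1 ≤ ∑ j' ∈ Finset.range (K + 1), (d j j' + 1) :=
    Finset.single_le_sum (f := fun j' => d j j' + 1) (fun _ _ => Nat.zero_le _)
      (Finset.mem_range.2 (by omega))
  have h3 : ∑ j' ∈ Finset.range (K + 1), (d j j' + 1) ≤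
      ∑ j ∈ Finset.range (K + 1), ∑ j' ∈ Finset.range (K + 1), (d j j' + 1) :=
    Finset.single_le_sum (f := fun j => ∑ j' ∈ Finset.range (K + 1), (d j j' + 1))
      (fun _ _ => Nat.zero_le _) (Finset.mem_range.2 (by omega))
  exact hd j j' hne (congrFun he ⟨d j j', by omega⟩)

theorem exists_out (C : Set CS) (m K : ℕ) (hC : (tr m '' C).ncard ≤ K) (a : ℕ → CS) (p : ℕ)
    (hsep : ∀ j ≤ K, ∀ j' ≤ K, j ≠ j' → tr m (a (p + j)) ≠ tr m (a (p + j'))) :
    ∃ j ≤ K, a (p + j) ∉ C := by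
  classical
  by_contra hcon
  push Not at hcon
  have h1 : ((Finset.range (K + 1)).image fun j => tr m (a (p + j))).card = K + 1 := by
    rw [Finset.card_image_of_injOn, Finset.card_range]
    intro j hj j' hj' he
    simp only [Finset.coe_range, mem_Iio] at hj hj'
    by_contra hne
    exact hsep j (by omega) j' (by omega) hne he
  have h2 : (((Finset.range (K + 1)).image fun j => tr m (a (p + j)) : Finset _) :
      Set (Fin m → Bool)) ⊆ tr m '' C := by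
    intro t ht
    simp only [Finset.coe_image, Finset.coe_range, mem_image, mem_Iio] at ht
    obtain ⟨j, hj, rfl⟩ := ht
    exact ⟨_, hcon j (by omega), rfl⟩
  have h3 := Set.ncard_le_ncard h2 (Set.toFinite _)
  rw [Set.ncard_coe_finset, h1] at h3
  omega

theorem thin_main (h : sR.ord.cof = ℵ₀) (H : ℕ → ℕ) : ∃ f : ℕ → ℕ, ∀ ℒ : Set (Set CS), #ℒ ≤ sR →
    (∀ L ∈ ℒ, ∀ n, (tr (f n) '' L).ncard ≤ H n) → ∃ x, ∀ L ∈ ℒ, x ∉ L := by
  classical
  by_contra hcon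
  push Not at hcon
  choose ℒ hℒ hthin hcov using hcon
  have h0 : ℵ₀ ≤ sR := by
    calc ℵ₀ = sR.ord.cof := h.symm
      _ ≤ sR := Ordinal.cof_ord_le _
  obtain ⟨B, hB, hu⟩ := exists_unbounded h0
  obtain ⟨𝒮, hS, hsp⟩ := exists_split_seq h0
  obtain ⟨𝒰, _, hcard⟩ := exists_family h0
  obtain ⟨T, hT, hTc⟩ := exists_cover 𝒰 (by rw [hcard]; exact h)
  rw [hcard] at hT
  -- the family
  obtain ⟨𝒱, h𝒱⟩ : ∃ 𝒱 : Set (Set CS),
      𝒱 = ⋃ f : B, ⋃ L : ℒ (Fbd f), (fun T => Vset (Cset L f) T) '' 𝒮 := ⟨_, rfl⟩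
  have hcard𝒱 : #𝒱 ≤ sR := by
    rw [h𝒱]
    refine (Cardinal.mk_iUnion_le _).trans ?_
    refine (mul_le_mul' hB (ciSup_le' fun f => ?_)).trans (Cardinal.mul_eq_self h0).le
    refine (Cardinal.mk_iUnion_le _).trans ?_
    exact (mul_le_mul' (hℒ _) (ciSup_le' fun L => Cardinal.mk_image_le.trans hS)).trans
      (Cardinal.mul_eq_self h0).le
  have hop𝒱 : ∀ w ∈ 𝒱, IsOpen w := by
    intro w hw
    rw [h𝒱] at hw
    simp only [mem_iUnion, mem_image] at hw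
    obtain ⟨f, L, S, _, rfl⟩ := hw
    exact Vset_open _ (Cset_clopen _ _) _
  obtain ⟨φ, hφ, hφo⟩ : ∃ φ : 𝒰 → Set CS, 𝒱 ⊆ range φ ∧ ∀ u, IsOpen (φ u) := by
    have hle : #𝒱 ≤ #𝒰 := by rw [hcard]; exact hcard𝒱
    obtain ⟨e⟩ := (Cardinal.le_def _ _).1 hle
    refine ⟨fun u => if hex : ∃ v : 𝒱, e v = u then (hex.choose : Set CS) else ∅, ?_, ?_⟩
    · intro v hv
      refine ⟨e ⟨v, hv⟩, ?_⟩
      have hex : ∃ v' : 𝒱, e v' = e ⟨v, hv⟩ := ⟨⟨v, hv⟩, rfl⟩
      simp only [hex, dif_pos]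
      have := e.injective hex.choose_spec
      rw [this]
    · intro u
      by_cases hex : ∃ v : 𝒱, e v = u
      · simp only [hex, dif_pos]
        exact hop𝒱 _ hex.choose.2
      · simp only [hex, dif_neg, not_false_eq_true]
        exact isOpen_empty
  obtain ⟨Vn, hVn⟩ : ∃ Vn : ℕ → Set (Set CS), ∀ n, Vn n =
      {w | ∃ k ≤ n, w ∈ φ '' (Subtype.val ⁻¹' T k)} := ⟨_, fun n => rfl⟩
  have hVcard : ∀ n, #(Vn n) < sR := by
    have h1 : ∀ k, #(φ '' (Subtype.val ⁻¹' T k)) < sR := fun k =>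
      lt_of_le_of_lt (Cardinal.mk_image_le.trans
        (Cardinal.mk_preimage_of_injective _ _ Subtype.val_injective)) (hT k)
    intro n
    induction n with
    | zero =>
      refine lt_of_le_of_lt (Cardinal.mk_le_mk_of_subset ?_) (h1 0)
      intro w hw
      rw [hVn] at hw
      obtain ⟨k, hk, hw⟩ := hw
      obtain rfl : k = 0 := by omega
      exact hw
    | succ n ih =>
      have hsub : Vn (n + 1) ⊆ Vn n ∪ φ '' (Subtype.val ⁻¹' T (n + 1)) := by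
        intro w hw
        rw [hVn] at hw
        obtain ⟨k, hk, hw⟩ := hw
        rcases Nat.eq_or_lt_of_le hk with rfl | hlt
        · exact Or.inr hw
        · left
          rw [hVn]
          exact ⟨k, by omega, hw⟩
      refine lt_of_le_of_lt (Cardinal.mk_le_mk_of_subset hsub) ?_
      exact lt_of_le_of_lt (Cardinal.mk_union_le _ _) (Cardinal.add_lt_of_lt h0 ih (h1 _))
  have hVo : ∀ n, ∀ w ∈ Vn n, IsOpen w := by
    intro n w hw
    rw [hVn] at hw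
    obtain ⟨k, _, u, _, rfl⟩ := hw
    exact hφo u
  -- unsplit sets
  choose A hA hAu using fun n => exists_unsplit_CS h0 (Vn n) (hVcard n) (hVo n)
  have hseq : ∀ n, ∃ (a : ℕ → CS) (x : CS), Injective a ∧ (∀ j, a j ∈ A n) ∧
      Tendsto a atTop (𝓝 x) := by
    intro n
    obtain ⟨x, ψ, hψ, hx⟩ := CompactSpace.tendsto_subseq fun j => ((hA n).natEmbedding _ j : CS)
    refine ⟨_, x, ?_, ?_, hx⟩
    · exact (Subtype.val_injective.comp ((hA n).natEmbedding _).injective).comp hψ.injective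
    · intro j
      exact ((hA n).natEmbedding _ (ψ j)).2
  choose a x ha haA hax using hseq
  obtain ⟨y, ψ, hψ, hxψ⟩ := CompactSpace.tendsto_subseq x
  -- growth
  choose G hG using fun n p => exists_sep (a (ψ n)) (ha (ψ n)) p ((p + 2) * H p)
  obtain ⟨f, hf, hfg⟩ := hu fun p => ∑ n ∈ Finset.range (p + 1), G n p
  have hθ : ∀ i, ∃ n, i ≤ n ∧ ∀ p < i, ∀ j < f p, x (ψ n) j = y j := by
    intro i
    have hev : ∀ᶠ n in atTop, ∀ j ∈ Finset.range (∑ p ∈ Finset.range i, f p), x (ψ n) j = y j := by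
      rw [Filter.eventually_all_finset]
      intro j _
      have := (tendsto_pi_nhds.1 hxψ) j
      rw [nhds_discrete, tendsto_pure] at this
      exact this
    obtain ⟨n, hn1, hn2⟩ := (hev.and (eventually_ge_atTop i)).exists
    refine ⟨n, hn2, fun p hp j hj => hn1 j (Finset.mem_range.2 (hj.trans_le ?_))⟩
    exact Finset.single_le_sum (f := f) (fun _ _ => Nat.zero_le _) (Finset.mem_range.2 hp)
  choose θ hθ1 hθ2 using hθ
  -- the coded point
  obtain ⟨X, hX⟩ : ∃ X : ℕ → CS, ∀ i, X i = if i = 0 then y else x (ψ (θ (i - 1))) :=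
    ⟨_, fun i => rfl⟩
  obtain ⟨c, hc⟩ : ∃ c : CS, ∀ i j, c (Nat.pair i j) = X i j :=
    ⟨fun k => X k.unpair.1 k.unpair.2, fun i j => by simp only [Nat.unpair_pair]⟩
  obtain ⟨L, hL, hcL⟩ := hcov (Fbd f) c
  have hxC : ∀ i p, x (ψ (θ i)) ∈ Cset L f p := by
    intro i p
    rcases Nat.lt_or_ge p i with h1 | h1
    · refine ⟨c, hcL, 0, by omega, fun j hj => ?_⟩
      rw [hc, hX, if_pos rfl]
      exact hθ2 i p h1 j hj
    · refine ⟨c, hcL, i + 1, by omega, fun j _ => ?_⟩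
      rw [hc, hX, if_neg (by omega)]
      rfl
  have hout : ∀ i N, ∃ j, N ≤ j ∧ ∃ p, a (ψ (θ i)) j ∉ Cset L f p := by
    intro i N
    obtain ⟨p, hp, hgp⟩ := hfg (max N (θ i))
    have h1 : θ i ≤ p := (le_max_right _ _).trans hp
    have h2 : G (θ i) p ≤ f p :=
      (Finset.single_le_sum (f := fun n => G n p) (fun _ _ => Nat.zero_le _)
        (Finset.mem_range.2 (by omega))).trans hgp
    obtain ⟨j, _, hj⟩ := exists_out (Cset L f p) (f p) ((p + 2) * H p)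
      (Cset_thin L f p (H p) (hthin _ L hL p)) (a (ψ (θ i))) p (hG (θ i) p (f p) h2)
    exact ⟨p + j, ((le_max_left _ _).trans hp).trans (Nat.le_add_right _ _), p, hj⟩
  obtain ⟨S, hS', hspl⟩ := hsp (fun i => Dset (Cset L f) (a (ψ (θ i)))) fun i =>
    Dset_infinite _ (Cset_clopen L f) _ _ (hax _) (hxC i) (hout i)
  have hV : Vset (Cset L f) S ∈ 𝒱 := by
    rw [h𝒱]
    simp only [mem_iUnion, mem_image]
    exact ⟨⟨f, hf⟩, ⟨L, hL⟩, S, hS', rfl⟩
  obtain ⟨u, hu'⟩ := hφ hV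
  obtain ⟨m, hm⟩ := hTc u.1 u.2
  have hmn : m ≤ ψ (θ m) := (hθ1 m).trans (hψ.id_le _)
  refine hAu (ψ (θ m)) (Vset (Cset L f) S) ?_ ?_
  · rw [hVn]
    exact ⟨m, hmn, u, hm, hu'⟩
  · have h1 := spl_Vset _ _ _ (hspl m)
    have h2 : range (a (ψ (θ m))) ⊆ A (ψ (θ m)) := by
      rintro _ ⟨j, rfl⟩
      exact haA _ j
    exact ⟨h1.1.mono (inter_subset_inter_left _ h2), h1.2.mono (sdiff_subset_sdiff_left h2)⟩

end Pool.Agent.Helper4.SR
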